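import Pool.Agent.Lib_helper84.NIPEllis

/-!
# The `τ`-topology on the ideal group of an NIP group is Hausdorff
-/

namespace Pool.Agent.Results.MP_984980_lc.TauHausdorff

open FirstOrder FirstOrder.Language Cardinal Set Topology
open Pool.Agent.Lib_helper84.Tau Pool.Agent.Lib_helper84.NIP

universe u v w

/-- Let `T` be a complete NIP theory, `M ⊨ T`, `G` a group `0`-definable in `M` and `N` an
`|M|^+`-saturated elementary extension of `M`. Let `I` be a minimal left ideal of the semigroup
`S_G^{fs}(N, M)` and `i ∈ I` an idempotent. Then the sets `A ⊆ i I` with `cl_τ(A) = A` are the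
closed sets of a topology on `i I` (the `τ`-topology), and this topology is Hausdorff. There is no
restriction on the cardinality of `M` (or of `L`). -/
theorem result {L : FirstOrder.Language.{u, v}} (T : L.Theory) (_hT : T.IsComplete)
    (hNIP : IsNIP.{u, v, w} T) (M N : Type w) [L.Structure M] [L.Structure N] [Nonempty M]
    [M ⊨ T] (G : DefGroup L M) (e : M ↪ₑ[L] N) (hsat : IsSaturated L (Order.succ #M) N)
    (I : Set (SGfs e G hsat)) (hI : IsMinimalLeftIdeal I) (i : SGfs e G hsat) (hi : i ∈ I)
    (hii : i * i = i) :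
    ∃ τ : TopologicalSpace (idealGroup I i),
      (∀ A : Set (idealGroup I i), IsClosed[τ] A ↔
        clTau SGfs.realized I i (Subtype.val '' A) = Subtype.val '' A) ∧
      @T2Space (idealGroup I i) τ := by
  let inst : Semigroup (SGfs e G hsat) := SGfs.semigroup
  have E : Ellis (SGfs.realized : G.Pts → SGfs e G hsat) := SGfs.ellis
  refine ⟨E.tau hI hii, fun A => ?_, ?_⟩
  · rw [E.isClosed_tau_iff hI hii A]
    rw [← image_clSub]
    exact (Subtype.val_injective.image_injective.eq_iff).symm
  · refine E.tau_t2Space hI hi hii (Set.range SGfs.bas) ?_ ?_ ?_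
    · rintro _ ⟨φ, rfl⟩
      exact SGfs.isClopen_bas φ
    · intro x y hxy
      obtain ⟨φ, h1, h2⟩ := SGfs.exists_sep hxy
      exact ⟨_, ⟨φ, rfl⟩, h1, h2⟩
    · rintro _ ⟨φ, rfl⟩
      exact SGfs.finVC hNIP φ

end Pool.Agent.Results.MP_984980_lc.TauHausdorff
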